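import Pool.Agent.H71.AL.Targets

/-!
# Row CIR of the board alv_modules: the topological Vaught conjecture on the circle
-/

set_option autoImplicit false

open Set
open Pool.Agent.AL

namespace Pool.Agent.H39.ALV.CIR

theorem rs_inj : Function.Injective rs := by
  intro h h' he
  funext k
  apply Homeomorph.ext
  intro x
  have h1 : (fun x => h k x) = fun x => h' k x := by
    refine Continuous.ext_on (Rat.denseRange_cast (𝕜 := ℝ)) (h k).continuous (h' k).continuous ?_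
    rintro _ ⟨q, rfl⟩
    exact congrFun (congrFun he k) q
  exact congrFun h1 x

/-- the coding relation -/
def R : Set (Y × ((ℕ → ℚ → ℝ) × (ℕ → ℝ) × (ℕ → ℤ))) :=
  {p | Cz p.1 p.2.1 p.2.2.1 p.2.2.2}

/-- conjugacy of the codes -/
def E (z z' : (ℕ → ℚ → ℝ) × (ℕ → ℝ) × (ℕ → ℤ)) : Prop :=
  ∃ h h' : ℕ → ℝ ≃ₜ ℝ, (∀ k, Lf (h k)) ∧ (∀ k, Lf (h' k)) ∧ z.1 = rs h ∧ z'.1 = rs h' ∧ Cc h h'

theorem mt_of_inc {y : Y} {f : ℕ → ℕ} (h : Inc (lt y) f) : Mt y f :=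
  Or.inl fun a b hab => Or.inr (h a b hab)

theorem sp_mt {y : Y} (h : Sp y) : ∀ k, Mt y (y.2 k) := by
  intro k
  rcases Nat.even_or_odd' k with ⟨j, hj | hj⟩
  · rw [hj]
    exact mt_of_inc (h.inc j)
  · rw [hj]
    refine mt_of_inc ?_
    intro a b hab
    have hln := h.cy.1.ln
    have hinv := h.cy.1.inv j
    by_contra hc
    by_cases hne : y.2 (2 * j + 1) a = y.2 (2 * j + 1) b
    · have h1 := (hinv a).2
      rw [hne, (hinv b).2] at h1
      rw [h1] at hab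
      exact hln.1 a hab
    · rcases hln.2.1 _ _ hne with h2 | h2
      · exact hc h2
      · have h3 := h.inc j _ _ h2
        rw [(hinv a).2, (hinv b).2] at h3
        exact hln.1 a (hln.2.2 a b a hab h3)

theorem pf_CIR (hT : T_TRN) (hA : T_CZA) (hB : T_CZB) (hM : T_CZM) (hI : T_SIV) : T_CIR := by
  intro B hBm hinv
  obtain ⟨hA1, hA2, hA3⟩ := hA
  have hdom : {y : Y | ∃ z, (y, z) ∈ R} = {y | Sp y} := by
    ext y
    constructor
    · rintro ⟨z, hz⟩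
      exact hz.1
    · intro hy
      obtain ⟨a, e, n, h⟩ := hA3 y hy
      exact ⟨(a, e, n), h⟩
  have hE : ∀ r ∈ R, ∀ r' ∈ R, (Iso r.1 r'.1 ↔ E r.2 r'.2) := by
    intro r hr r' hr'
    obtain ⟨h, hh, e1⟩ := hA2 _ _ _ _ hr
    obtain ⟨h', hh', e2⟩ := hA2 _ _ _ _ hr'
    have hr1 : Cz r.1 (rs h) r.2.2.1 r.2.2.2 := e1 ▸ hr
    have hr2 : Cz r'.1 (rs h') r'.2.2.1 r'.2.2.2 := e2 ▸ hr'
    rw [hB r.1 r'.1 _ _ _ _ h h' hh hh' hr1 hr2]
    constructor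
    · intro hc
      exact ⟨h, h', hh, hh', e1, e2, hc⟩
    · rintro ⟨k, k', -, -, e3, e4, hc⟩
      have e5 : k = h := rs_inj (e3.symm.trans e1)
      have e6 : k' = h' := rs_inj (e4.symm.trans e2)
      rw [← e5, ← e6]
      exact hc
  rcases hT ((ℕ → ℚ → ℝ) × (ℕ → ℝ) × (ℕ → ℤ)) (ℕ → ℚ → ℝ) R Prod.fst B E hM.2 measurable_fst hBm
    (by rw [hdom]; exact hM.1)
    (fun r hr => ⟨hr.1.cy.1.ln, sp_mt hr.1⟩)
    (fun r hr y hy => by
      obtain ⟨a, e, n, h⟩ := hA3 y (hI _ _ hy hr.1)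
      exact ⟨(a, e, n), h⟩)
    hE
    (fun r _ r' _ hEr hr => by
      obtain ⟨h, h', hh, hh', e1, e2, hc⟩ := hEr
      rw [e1] at hr
      rw [e2]
      exact hinv h h' hh hh' hc hr) with hF | hD
  · left
    obtain ⟨F, hFm, hF1, hF2⟩ := hF
    have hex : ∀ u, ∃ h : ℕ → ℝ ≃ₜ ℝ, (∀ k, Lf (h k)) ∧ (F u).1 = rs h := by
      intro u
      obtain ⟨⟨y, hy⟩, -⟩ := hF1 u
      exact hA2 _ _ _ _ hy
    choose h hh he using hex
    refine ⟨h, ?_, fun u => ⟨hh u, ?_⟩, fun u v huv hc => hF2 u v huv ?_⟩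
    · have : (fun u => rs (h u)) = fun u => (F u).1 := by
        funext u
        exact (he u).symm
      rw [this]
      exact measurable_fst.comp hFm
    · rw [← he u]
      exact (hF1 u).2
    · exact ⟨h u, h v, hh u, hh v, he u, he v, hc⟩
  · right
    obtain ⟨D, hDc, -, hD2⟩ := hD
    refine ⟨rs ⁻¹' (Prod.fst '' D), (hDc.image Prod.fst).preimage_of_injOn rs_inj.injOn, ?_⟩
    intro h hh hB'
    obtain ⟨y, e, n, hy⟩ := hA1 h hh
    obtain ⟨z, hz, h1, h2, -, -, e1, e2, hc⟩ := hD2 (y, (rs h, e, n)) hy hB'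
    have e3 : h1 = h := rs_inj e1.symm
    refine ⟨h2, ⟨z, hz, e2⟩, ?_⟩
    rw [← e3]
    exact hc

end Pool.Agent.H39.ALV.CIR
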